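import Pool.Agent.Helper1.PB.Normal

namespace Pool.Agent.Results.MP_b61b62_gt.BraidGap

open Pool.Agent.Helper1.PB

/-- Every nonempty positive braid word `w` on `n + 1` strands is equal in the braid monoid to one
whose closed diagram has Turaev genus at most `(w.length - n - ⌊w.length / N⌋) / 2`, where
`N = n (n + 1) / 2 + 1`. -/
theorem result (n : ℕ) (w : List (Fin n)) (hw : w ≠ []) :
    ∃ w' : List (Fin n), BEq w w' ∧ turaevGenus w' ≤
      ((w.length : ℚ) - n - (w.length / (n * (n + 1) / 2 + 1) : ℕ)) / 2 := by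
  obtain ⟨w', h1, h2⟩ := many_sq (w.length / (n * (n + 1) / 2 + 1)) w (Nat.div_mul_le_self _ _)
  have hne : w' ≠ [] := by
    rintro rfl
    have := h1.len
    exact hw (List.length_eq_zero_iff.1 (by simpa using this))
  refine ⟨w', h1, ?_⟩
  have h5 := h2.genus hne
  rw [← h1.len] at h5
  exact h5

end Pool.Agent.Results.MP_b61b62_gt.BraidGap
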