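import Pool.Agent.Helper1.PB.Knot

namespace Pool.Agent.Results.MP_b61b62_gt.PositiveBraids

open Pool.Agent.Helper1.PB

/-- Positive braid knots. A word `w : List (Fin n)` is a positive braid word on `n + 1` strands.
If its closure is a knot and the word does not have length `n` (so that the genus
`(w.length - n) / 2` of the closure is not `0`), then the knot has a positive braid diagram with
the same `length - n` and with Turaev genus smaller than `(w.length - n) / 2`. -/
theorem result (n : ℕ) (w : List (Fin n)) (hk : IsKnot w) (hl : w.length ≠ n) :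
    ∃ (m : ℕ) (w' : List (Fin m)), m ≤ n ∧ SameLink ⟨n, w⟩ ⟨m, w'⟩ ∧
      (w'.length : ℚ) - m = w.length - n ∧ turaevGenus w' < ((w.length : ℚ) - n) / 2 := by
  obtain ⟨m, w', hm, h1, h2, h3⟩ := exists_square n w hk.full hl
  have h4 : (w'.length : ℚ) + n = w.length + m := by exact_mod_cast h3
  have hne : w' ≠ [] := by
    rintro rfl
    obtain ⟨u, i, v, h⟩ := h2
    simp at h
  refine ⟨m, w', hm, h1, by linarith, ?_⟩
  have h5 := h2.sq.genus hne
  push_cast at h5
  linarith

end Pool.Agent.Results.MP_b61b62_gt.PositiveBraids
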