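import Pool.Agent.Helper71.TG.Main

namespace Pool.Agent.Results.MP_b61b62_gt.SlideCriterion

open Pool.Agent.Helper71.TG

/-- Let `e` be a positive diagram, on the sphere, of a knot. If a slide (for example a Reidemeister
move of type three) can be applied to it, or if it has no kinks and fewer than twelve end crossings
of antiparallel twist regions (that is, fewer than six antiparallel twist regions with at least two
crossings), then the Turaev genus of the diagram itself or of a diagram obtained from it by one
slide is smaller than the genus of the surface given by Seifert's algorithm, which is the genus of
the knot. -/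
theorem result (C : Type) [Finite C] [Nonempty C] (e : Equiv.Perm (C × Bool)) (hk : IsKnot e)
    (hp : Planar e) (h : (∃ e', Slide e e') ∨ (¬ HasKink e ∧ twistEnds e < 12)) :
    ∃ e', (e' = e ∨ Slide e e') ∧ IsKnot e' ∧ turaevGenus e' < seifertGenus e' :=
  main e hk hp h

end Pool.Agent.Results.MP_b61b62_gt.SlideCriterion
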